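import Pool.Agent.H369.RE.Stm

/-!
# The Weierstrass equation of the Tate curve
-/

set_option autoImplicit false

namespace Pool.Agent.H155.RE

open TensorProduct Pool.Agent.TH549.CK Pool.Agent.H369.TH Pool.Agent.H369.CFG Pool.Agent.H369.SM
open Pool.Agent.H369.PL Pool.Agent.H369.RE

section basic
variable {Γ K : Type} [AddCommGroup Γ] [LinearOrder Γ] [IsOrderedAddMonoid Γ] [Field K]

/-- evaluation at a monomial point -/
noncomputable def ev (a : Pt Γ K) : Ent Γ K →+* HG Γ K :=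
  (PowerSeries.constantCoeff (R := HG Γ K)).comp (T a)

theorem ev_apply (a : Pt Γ K) (f : Ent Γ K) : ev a f = PowerSeries.coeff 0 (T a f) := by
  rw [PowerSeries.coeff_zero_eq_constantCoeff]; rfl

theorem ev_cst (a : Pt Γ K) (c : HG Γ K) : ev a (cst c) = c := by
  rw [ev_apply, T_cst, PowerSeries.coeff_zero_C]

theorem TL_mul (a : Pt Γ K) (f g : Ent Γ K) : TL a (f * g) = TL a f * TL a g := by
  rw [TL, TL, TL, map_mul, PowerSeries.coe_mul]

theorem TL_add (a : Pt Γ K) (f g : Ent Γ K) : TL a (f + g) = TL a f + TL a g := by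
  rw [TL, TL, TL, map_add, PowerSeries.coe_add]

theorem TL_pow (a : Pt Γ K) (f : Ent Γ K) (n : ℕ) : TL a (f ^ n) = TL a f ^ n := by
  rw [TL, TL, map_pow, PowerSeries.coe_pow]

theorem TL_cst (a : Pt Γ K) (c : HG Γ K) :
    TL a (cst c) = algebraMap (HG Γ K) (LaurentSeries (HG Γ K)) c := by
  rw [TL, T_cst, PowerSeries.coe_C, LaurentSeries.algebraMap_apply]

theorem TL_inj (a : Pt Γ K) {f g : Ent Γ K} (h : TL a f = TL a g) : T a f = T a g := by
  have h1 : Function.Injective (HahnSeries.ofPowerSeries ℤ (HG Γ K)) :=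
    HahnSeries.ofPowerSeries_injective
  exact h1 h

/-! points -/

theorem ng_snd (a : Pt Γ K) : (ng a).2 = -a.2 := by
  show (-1 : Kˣ) * a.2 = -a.2
  rw [neg_one_mul]

theorem ng_fst (a : Pt Γ K) : (ng a).1 = a.1 := by
  show (1 : Multiplicative Γ) * a.1 = a.1
  rw [one_mul]

theorem qq_zpow_snd (P : Γ) (k : ℤ) : ((qq P : Pt Γ K) ^ k).2 = 1 := by
  show (1 : Kˣ) ^ k = 1
  rw [one_zpow]

theorem qq_zpow_fst (P : Γ) (k : ℤ) : ((qq P : Pt Γ K) ^ k).1 = Multiplicative.ofAdd (k • P) := by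
  show (Multiplicative.ofAdd P) ^ k = Multiplicative.ofAdd (k • P)
  rw [ofAdd_zsmul]

theorem unit_ne_neg [CharZero K] (u : Kˣ) : u ≠ -u := by
  intro h
  have h1 : (u : K) = -(u : K) := by
    have := congrArg (Units.val) h
    rwa [Units.val_neg] at this
  have h2 : (2 : K) * (u : K) = 0 := by linear_combination h1
  rcases mul_eq_zero.1 h2 with h3 | h3
  · exact two_ne_zero h3
  · exact u.ne_zero h3

theorem hf_ne {P hf : Γ} (hP : 0 < P) (h : hf + hf = P) (k : ℤ) : hf + k • P ≠ 0 := by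
  intro h0
  have hhf : hf ≠ 0 := by
    rintro rfl
    rw [add_zero] at h
    exact hP.ne h
  have h1 : (1 + 2 * k) • hf = 0 := by
    rw [← h] at h0
    rw [add_smul, one_smul, mul_smul, two_smul, ← smul_add]
    exact h0
  rcases smul_eq_zero.1 h1 with h2 | h2
  · omega
  · exact hhf h2

theorem ng_pow_two (o : Pt Γ K) : ng o ^ 2 = o ^ 2 := by
  apply Prod.ext
  · show (ng o).1 ^ 2 = o.1 ^ 2
    rw [ng_fst]
  · show (ng o).2 ^ 2 = o.2 ^ 2
    rw [ng_snd, neg_sq]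

theorem ng_ng (o : Pt Γ K) : ng (ng o) = o := by
  apply Prod.ext
  · rw [ng_fst, ng_fst]
  · rw [ng_snd, ng_snd, neg_neg]

theorem ng_mul (a b : Pt Γ K) : ng (a * b) = ng a * b := by
  unfold ng
  rw [mul_assoc]

theorem qq_half {P hf : Γ} (h : hf + hf = P) : (qq hf * qq hf : Pt Γ K) = qq P := by
  apply Prod.ext
  · show Multiplicative.ofAdd hf * Multiplicative.ofAdd hf = Multiplicative.ofAdd P
    rw [← ofAdd_add, h]
  · show (1 : Kˣ) * 1 = 1
    rw [one_mul]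

end basic

section points
variable {Γ K : Type} [AddCommGroup Γ] [LinearOrder Γ] [IsOrderedAddMonoid Γ] [Field K] [CharZero K]
variable {P hf : Γ} (hP : 0 < P) (h : hf + hf = P) (o : Pt Γ K)

theorem ne1 (a : Pt Γ K) (k : ℤ) : a ≠ ng a * qq P ^ k := by
  intro h0
  have h1 := congrArg Prod.snd h0
  rw [Prod.snd_mul, qq_zpow_snd, mul_one, ng_snd] at h1
  exact unit_ne_neg _ h1

theorem ne1' (k : ℤ) : o ≠ ng o * qq hf * qq P ^ k := by
  intro h0
  have h1 := congrArg Prod.snd h0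
  rw [Prod.snd_mul, qq_zpow_snd, mul_one, Prod.snd_mul, ng_snd] at h1
  exact unit_ne_neg _ (h1.trans (mul_one _))

theorem ne2 (k : ℤ) : ng o ≠ o * qq hf * qq P ^ k := by
  intro h0
  have h1 := congrArg Prod.snd h0
  rw [Prod.snd_mul, qq_zpow_snd, mul_one, Prod.snd_mul, ng_snd] at h1
  exact unit_ne_neg _ ((h1.trans (mul_one _)).symm)

theorem ne3 (k : ℤ) : o * qq hf ≠ ng o * qq hf * qq P ^ k := by
  intro h0
  have h1 := congrArg Prod.snd h0
  rw [Prod.snd_mul, Prod.snd_mul, qq_zpow_snd, mul_one, Prod.snd_mul, ng_snd] at h1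
  have h2 : o.2 * 1 = -o.2 * 1 := h1
  rw [mul_one, mul_one] at h2
  exact unit_ne_neg _ h2

include hP h in
theorem ne4 (k : ℤ) : o ≠ o * qq hf * qq P ^ k := by
  intro h0
  have h1 : (qq hf * qq P ^ k : Pt Γ K) = 1 := by
    rw [mul_assoc] at h0
    exact (left_eq_mul.1 h0)
  have h2 := congrArg Prod.fst h1
  rw [Prod.fst_mul, qq_zpow_fst] at h2
  have h3 : Multiplicative.ofAdd (hf + k • P) = Multiplicative.ofAdd (0 : Γ) := h2
  exact hf_ne hP h k (Multiplicative.ofAdd.injective h3)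

theorem ne5 (k : ℤ) (hP : 0 < P) (h : hf + hf = P) : ng o ≠ ng o * qq hf * qq P ^ k :=
  ne4 hP h (ng o) k

end points

section linear
variable {k M : Type} [Field k] [AddCommGroup M] [Module k M]

theorem span2 {V : Submodule k M} (hV : Module.finrank k V = 2)
    {u v f : M} (hu : u ∈ V) (hv : v ∈ V) (hf : f ∈ V)
    (huv : ∀ x y : k, x • u + y • v = 0 → x = 0 ∧ y = 0) :
    ∃ x y : k, f = x • u + y • v := by
  have h1 : LinearIndependent k ![(⟨u, hu⟩ : V), ⟨v, hv⟩] := by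
    rw [LinearIndependent.pair_iff]
    intro x y hxy
    exact huv x y (congrArg Subtype.val hxy)
  have h2 := h1.span_eq_top_of_card_eq_finrank (by rw [hV]; rfl)
  have h3 : (⟨f, hf⟩ : V) ∈ Submodule.span k (Set.range ![(⟨u, hu⟩ : V), ⟨v, hv⟩]) := by
    rw [h2]; trivial
  rw [Matrix.range_cons, Matrix.range_cons, Matrix.range_empty, Set.union_empty,
    Set.singleton_union, Submodule.mem_span_pair] at h3
  obtain ⟨x, y, hxy⟩ := h3
  exact ⟨x, y, (congrArg Subtype.val hxy).symm⟩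

end linear

section main
variable {Γ K : Type} [AddCommGroup Γ] [LinearOrder Γ] [IsOrderedAddMonoid Γ] [Field K]

theorem coeff_ne {P : Γ} {o : Pt Γ K}
    (hfr3 : ∀ (n : ℕ) (h : R1 P o), h ∈ Lp (R1 P o) n ↔ ∃ f, FR P o n f h)
    (hθ0 : ev o (theta P o) = 0) (n : ℕ) (f : Ent Γ K) (h : R1 P o) (hFR : FR P o (n + 1) f h)
    (hev : ev o f ≠ 0) : (h : LaurentSeries (HG Γ K)).coeff (-((n + 1 : ℕ) : ℤ)) ≠ 0 := by
  intro h0
  have h1 := (hfr3 (n + 1) h).2 ⟨f, hFR⟩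
  have h2 : h ∈ Lp (R1 P o) n := by
    rw [mem_Lp] at h1 ⊢
    intro k hk
    rcases eq_or_ne k (-((n + 1 : ℕ) : ℤ)) with e | e
    · rw [e]; exact h0
    · exact h1 k (by push_cast at e ⊢; omega)
  obtain ⟨f', hf'⟩ := (hfr3 n h).1 h2
  have h3 : TL o f = TL o (f' * theta P o) := by
    rw [TL_mul, ← hf'.2, ← hFR.2, pow_succ, mul_assoc]
  have h4 := TL_inj o h3
  apply hev
  rw [ev_apply, h4, ← ev_apply, map_mul, hθ0, mul_zero]

theorem pencil [CharZero K] (h1 : S_rules) (h2 : S_T) (h3 : S_Th) (h4 : S_theta) (P hf : Γ)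
    (hB : Big P) (hh : hf + hf = P) (o : Pt Γ K) : ∃ f0 f1 f2 g : Ent Γ K,
    f0 ∈ Th P ((2 : ℕ) : ℤ) (ng o ^ 2) ∧ g ∈ Th P ((3 : ℕ) : ℤ) (ng o ^ 3) ∧ g ^ 2 = f0 * f1 * f2 ∧
    ev o f0 ≠ 0 ∧ ev o g ≠ 0 ∧ ∃ a b a' b' : HG Γ K, a ≠ 0 ∧ b ≠ 0 ∧ a' ≠ 0 ∧ b' ≠ 0 ∧
    a' * b ≠ a * b' ∧ f1 = cst a * f0 + cst b * theta P o ^ 2 ∧
    f2 = cst a' * f0 + cst b' * theta P o ^ 2 := by
  obtain ⟨r1, r2, r3, r4, r5, r6, r7, r8, r9, r10, r11, r12⟩ := h1 Γ K
  obtain ⟨t1, t2, t3, t4, t5, t6, t7⟩ := h2 Γ K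
  obtain ⟨s1, s2, s3, s4, s5, s6, s7, s8⟩ := h3 Γ K P hB
  haveI := r1
  have hth : ∀ a : Pt Γ K, theta P a ∈ Th P 1 (ng a) := fun a => (h4 Γ K P hB a).1
  have hz : ∀ a : Pt Γ K, ev a (theta P a) = 0 := fun a => by
    rw [ev_apply]; exact (h4 Γ K P hB a).2.2.1
  have hnz : ∀ a b : Pt Γ K, (∀ k : ℤ, b ≠ a * qq P ^ k) → ev b (theta P a) ≠ 0 := fun a b hab => by
    rw [ev_apply]; exact (h4 Γ K P hB a).2.2.2.2 b hab
  have hm : ∀ (a : Pt Γ K) (k : ℤ), ev a (mono k) ≠ 0 := fun a k => by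
    exact ((t2 a k).1.map (PowerSeries.constantCoeff (R := HG Γ K))).ne_zero
  have hsq : ∀ (c : Pt Γ K) (f : Ent Γ K), f ∈ Th P 1 c → f ^ 2 ∈ Th P ((2 : ℕ) : ℤ) (c ^ 2) := by
    intro c f hf
    rw [sq, sq]
    exact s4 1 1 c c f f hf hf
  have hmm : (mono (-1) : Ent Γ K) ∈ Th P 0 (qq P ^ (-1 : ℤ)) := s7 (-1)
  have hsm : ∀ (c c' : Pt Γ K) (f : Ent Γ K), f ∈ Th P 1 c → c ^ 2 * qq P ^ (-1 : ℤ) = c' →
      f ^ 2 * mono (-1) ∈ Th P ((2 : ℕ) : ℤ) c' := by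
    intro c c' f hf hc
    rw [← hc]
    have := s4 ((2 : ℕ) : ℤ) 0 _ _ _ _ (hsq c f hf) hmm
    rwa [add_zero] at this
  set w0 : Pt Γ K := ng o with hw0
  set w1 : Pt Γ K := o * qq hf with hw1
  set w2 : Pt Γ K := ng o * qq hf with hw2
  have n0 : ng w0 = o := ng_ng o
  have n1 : ng w1 = ng o * qq hf := ng_mul o (qq hf)
  have n2 : ng w2 = o * qq hf := by rw [hw2, ng_mul, ng_ng]
  have q1 : (qq hf : Pt Γ K) ^ 2 * qq P ^ (-1 : ℤ) = 1 := by
    rw [sq, qq_half hh, zpow_neg_one, mul_inv_cancel]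
  have m0 : theta P w0 ^ 2 ∈ Th P ((2 : ℕ) : ℤ) (ng o ^ 2) := by
    have := hsq _ _ (hth w0)
    rwa [n0, ← ng_pow_two] at this
  have mo : theta P o ^ 2 ∈ Th P ((2 : ℕ) : ℤ) (ng o ^ 2) := hsq _ _ (hth o)
  have m1 : theta P w1 ^ 2 * mono (-1) ∈ Th P ((2 : ℕ) : ℤ) (ng o ^ 2) :=
    hsm _ _ _ (hth w1) (by rw [n1, mul_pow, mul_assoc, q1, mul_one])
  have m2 : theta P w2 ^ 2 * mono (-1) ∈ Th P ((2 : ℕ) : ℤ) (ng o ^ 2) :=
    hsm _ _ _ (hth w2) (by rw [n2, mul_pow, mul_assoc, q1, mul_one, ng_pow_two])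
  have mg : theta P w0 * theta P w1 * theta P w2 * mono (-1) ∈ Th P ((3 : ℕ) : ℤ) (ng o ^ 3) := by
    have e1 := s4 _ _ _ _ _ _ (s4 _ _ _ _ _ _ (s4 _ _ _ _ _ _ (hth w0) (hth w1)) (hth w2)) hmm
    have e2 : ng w0 * ng w1 * ng w2 * qq P ^ (-1 : ℤ) = ng o ^ 3 := by
      rw [n0, n1, n2]
      calc o * (ng o * qq hf) * (o * qq hf) * qq P ^ (-1 : ℤ)
          = (o ^ 2 * ng o) * (qq hf ^ 2 * qq P ^ (-1 : ℤ)) := by
            rw [sq, sq]; ac_rfl
        _ = ng o ^ 3 := by rw [q1, mul_one, ← ng_pow_two, ← pow_succ]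
    rw [e2] at e1
    exact e1
  have v0 : ev o (theta P w0) ≠ 0 := hnz w0 o (ne1 o)
  have v1 : ev o (theta P w1) ≠ 0 := hnz w1 o (ne4 s1 hh o)
  have v2 : ev o (theta P w2) ≠ 0 := hnz w2 o (ne1' o)
  have v3 : ev w0 (theta P w1) ≠ 0 := hnz w1 w0 (ne2 o)
  have v4 : ev w0 (theta P w2) ≠ 0 := hnz w2 w0 (fun k => ne5 o k s1 hh)
  have v5 : ev w1 (theta P w2) ≠ 0 := hnz w2 w1 (ne3 o)
  have hu0 : theta P o ≠ 0 := (h4 Γ K P hB o).2.1
  have hli : ∀ x y : HG Γ K, x • theta P w0 ^ 2 + y • theta P o ^ 2 = 0 → x = 0 ∧ y = 0 := by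
    intro x y hxy
    rw [smul_def', smul_def'] at hxy
    have e1 := congrArg (ev o) hxy
    simp only [map_add, map_mul, map_pow, ev_cst, hz, map_zero, zero_pow two_ne_zero, mul_zero,
      add_zero] at e1
    have hx : x = 0 := by
      rcases mul_eq_zero.1 e1 with e2 | e2
      · exact e2
      · exact absurd e2 (pow_ne_zero 2 v0)
    refine ⟨hx, ?_⟩
    rw [hx, map_zero, zero_mul, zero_add] at hxy
    rcases mul_eq_zero.1 hxy with e2 | e2
    · rw [← ev_cst o y, e2, map_zero]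
    · exact absurd e2 (pow_ne_zero 2 hu0)
  have hfin := s5 2 (ng o ^ 2) (by norm_num)
  obtain ⟨a, b, hab⟩ := span2 hfin m0 mo m1 hli
  obtain ⟨a', b', hab'⟩ := span2 hfin m0 mo m2 hli
  rw [smul_def', smul_def'] at hab hab'
  have ha : a ≠ 0 := by
    intro h0
    rw [h0] at hab
    have e1 := congrArg (ev o) hab
    simp only [map_add, map_mul, map_pow, ev_cst, hz, map_zero, zero_pow two_ne_zero, mul_zero,
      zero_mul, add_zero] at e1
    exact mul_ne_zero (pow_ne_zero 2 v1) (hm _ _) e1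
  have hb : b ≠ 0 := by
    intro h0
    rw [h0] at hab
    have e1 := congrArg (ev w0) hab
    simp only [map_add, map_mul, map_pow, ev_cst, hz, map_zero, zero_pow two_ne_zero, mul_zero,
      zero_mul, add_zero] at e1
    exact mul_ne_zero (pow_ne_zero 2 v3) (hm _ _) e1
  have ha' : a' ≠ 0 := by
    intro h0
    rw [h0] at hab'
    have e1 := congrArg (ev o) hab'
    simp only [map_add, map_mul, map_pow, ev_cst, hz, map_zero, zero_pow two_ne_zero, mul_zero,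
      zero_mul, add_zero] at e1
    exact mul_ne_zero (pow_ne_zero 2 v2) (hm _ _) e1
  have hb' : b' ≠ 0 := by
    intro h0
    rw [h0] at hab'
    have e1 := congrArg (ev w0) hab'
    simp only [map_add, map_mul, map_pow, ev_cst, hz, map_zero, zero_pow two_ne_zero, mul_zero,
      zero_mul, add_zero] at e1
    exact mul_ne_zero (pow_ne_zero 2 v4) (hm _ _) e1
  refine ⟨_, _, _, _, m0, mg, ?_, ?_, ?_, a, b, a', b', ha, hb, ha', hb', ?_, hab, hab'⟩
  · ring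
  · rw [map_pow]; exact pow_ne_zero 2 v0
  · rw [map_mul, map_mul, map_mul]
    exact mul_ne_zero (mul_ne_zero (mul_ne_zero v0 v1) v2) (hm _ _)
  · intro hc
    have e1 : cst a' * (theta P w1 ^ 2 * mono (-1)) = cst a * (theta P w2 ^ 2 * mono (-1)) := by
      rw [hab, hab']
      have e2 : (cst (a' * b) : Ent Γ K) = cst (a * b') := by rw [hc]
      rw [map_mul, map_mul] at e2
      linear_combination (theta P o ^ 2) * e2
    have e3 := congrArg (ev w1) e1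
    simp only [map_mul, map_pow, ev_cst, hz, zero_pow two_ne_zero, zero_mul, mul_zero] at e3
    exact mul_ne_zero ha (mul_ne_zero (pow_ne_zero 2 v5) (hm _ _)) e3.symm

theorem wf (h1 : S_rules) (h2 : S_T) (h3 : S_Th) (h4 : S_theta) (h5 : Pool.Agent.H369.TH.S_div) (h6 : S_fr) :
    S_wf := by
  intro Γ K _ _ _ _ _ P hf hB hh o
  obtain ⟨hfr1, hfr2, hfr3, hfr4⟩ := h6 Γ K P hB o
  obtain ⟨f0, f1, f2, g, hf0, hg, hg2, he0, heg, a, b, a', b', ha, hb, ha', hb', hab, hf1, hf2⟩ :=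
    pencil h1 h2 h3 h4 P hf hB hh o
  obtain ⟨X, hX⟩ := hfr2 2 f0 hf0
  obtain ⟨Y, hY⟩ := hfr2 3 g hg
  have hθ0 : ev o (theta P o) = 0 := by
    rw [ev_apply]; exact (h4 Γ K P hB o).2.2.1
  have hθ : TL o (theta P o) ≠ 0 := by
    intro h0
    have h00 : TL o (0 : Ent Γ K) = 0 := by
      rw [TL, map_zero, PowerSeries.coe_zero]
    have h01 := (h2 Γ K).1 o (TL_inj o (h0.trans h00.symm))
    exact (h4 Γ K P hB o).2.1 h01
  refine ⟨X, Y, a * a', 0, -(b / a), -(b' / a'), (hfr3 2 X).2 ⟨f0, hX⟩,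
    coeff_ne hfr3 hθ0 1 f0 X hX he0, (hfr3 3 Y).2 ⟨g, hY⟩, coeff_ne hfr3 hθ0 2 g Y hY heg,
    mul_ne_zero ha ha', ?_, ?_, ?_, ?_⟩
  · intro h0
    have : b / a = 0 := by rw [← neg_eq_zero, ← h0]
    exact div_ne_zero hb ha this
  · intro h0
    have : b' / a' = 0 := by rw [← neg_eq_zero, ← h0]
    exact div_ne_zero hb' ha' this
  · intro h0
    rw [neg_inj, div_eq_div_iff ha ha'] at h0
    apply hab
    linear_combination h0
  · apply Subtype.ext
    have eX := hX.2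
    have eY := hY.2
    have eg := congrArg (TL o) hg2
    rw [TL_pow, TL_mul, TL_mul, hf1, hf2, TL_add, TL_add, TL_mul, TL_mul, TL_mul, TL_mul, TL_pow,
      TL_cst, TL_cst, TL_cst, TL_cst, ← eX, ← eY] at eg
    have hba : algebraMap (HG Γ K) (LaurentSeries (HG Γ K)) a *
        algebraMap (HG Γ K) (LaurentSeries (HG Γ K)) (b / a) =
        algebraMap (HG Γ K) (LaurentSeries (HG Γ K)) b := by
      rw [← map_mul, mul_div_cancel₀ _ ha]
    have hba' : algebraMap (HG Γ K) (LaurentSeries (HG Γ K)) a' *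
        algebraMap (HG Γ K) (LaurentSeries (HG Γ K)) (b' / a') =
        algebraMap (HG Γ K) (LaurentSeries (HG Γ K)) b' := by
      rw [← map_mul, mul_div_cancel₀ _ ha']
    apply mul_right_cancel₀ (pow_ne_zero 6 hθ)
    show (Y : LaurentSeries (HG Γ K)) ^ 2 * TL o (theta P o) ^ 6 =
      (algebraMap (HG Γ K) (LaurentSeries (HG Γ K)) (a * a') *
        ((X : LaurentSeries (HG Γ K)) - algebraMap (HG Γ K) (LaurentSeries (HG Γ K)) 0) *
        ((X : LaurentSeries (HG Γ K)) - algebraMap (HG Γ K) (LaurentSeries (HG Γ K)) (-(b / a))) *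
        ((X : LaurentSeries (HG Γ K)) - algebraMap (HG Γ K) (LaurentSeries (HG Γ K)) (-(b' / a')))) *
        TL o (theta P o) ^ 6
    rw [map_zero, map_neg, map_neg, map_mul]
    rw [← hba, ← hba'] at eg
    linear_combination eg

end main

end Pool.Agent.H155.RE
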